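import Pool.Agent.W475.BG.Stm

set_option autoImplicit false

/-! The tail of the expansion (L-functions of degree `d`). -/

namespace Pool.Agent.W398.BG
open MeasureTheory Filter Topology Set Complex
open Pool.Agent.W475.BG

theorem norm_XT_le (D : Dat) (A : ℝ) (hA : ∀ n : ℕ, 1 ≤ n → ‖D.a n‖ ≤ (n : ℝ) ^ A)
    (κ t : ℝ) (u : ℂ) (hu : 0 ≤ u.re) (n : ℕ) :
    ‖XT D κ (I * t + u) n‖ ≤
      Real.exp (-(κ * Real.log ((n : ℝ) + 1) ^ 2) + A * Real.log ((n : ℝ) + 1)) *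
      ‖GG D κ (I * t + (u + ((2 * κ * Real.log ((n : ℝ) + 1) : ℝ) : ℂ)))‖ := by
  unfold XT
  rw [norm_mul, norm_mul, norm_mul, add_assoc (I * (t : ℂ)) u]
  have hpos : (0 : ℝ) < (n : ℝ) + 1 := by positivity
  have h1 : ‖((n : ℂ) + 1) ^ (-(1 / 2) - (I * t + u))‖ ≤ 1 := by
    have hc : ((n : ℂ) + 1) = (((n : ℝ) + 1 : ℝ) : ℂ) := by push_cast; rfl
    rw [hc, Complex.norm_cpow_eq_rpow_re_of_pos hpos]
    apply Real.rpow_le_one_of_one_le_of_nonpos
    · have : (0 : ℝ) ≤ n := Nat.cast_nonneg n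
      linarith
    · simp
      linarith
  have h2 : ‖((Real.exp (-(κ * Real.log ((n : ℝ) + 1) ^ 2)) : ℝ) : ℂ)‖ =
      Real.exp (-(κ * Real.log ((n : ℝ) + 1) ^ 2)) := by
    rw [Complex.norm_real, Real.norm_eq_abs, abs_of_pos (Real.exp_pos _)]
  have h3 : ‖D.a (n + 1)‖ ≤ Real.exp (A * Real.log ((n : ℝ) + 1)) := by
    refine (hA (n + 1) (by omega)).trans (le_of_eq ?_)
    rw [show (((n + 1 : ℕ) : ℕ) : ℝ) = (n : ℝ) + 1 by push_cast; rfl, Real.rpow_def_of_pos hpos,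
      mul_comm]
  rw [h2]
  calc _ ≤ Real.exp (A * Real.log ((n : ℝ) + 1)) * 1 *
        Real.exp (-(κ * Real.log ((n : ℝ) + 1) ^ 2)) *
        ‖GG D κ (I * t + (u + ((2 * κ * Real.log ((n : ℝ) + 1) : ℝ) : ℂ)))‖ := by
        gcongr
    _ = _ := by rw [mul_one, Real.exp_add, mul_comm (Real.exp (A * _))]

theorem log_le_two_sqrt {x : ℝ} (hx : 0 < x) : Real.log x ≤ 2 * Real.sqrt x := by
  have h1 : Real.log x = 2 * Real.log (Real.sqrt x) := by
    rw [Real.log_sqrt hx.le]; ring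
  rw [h1]
  have := Real.log_le_sub_one_of_pos (Real.sqrt_pos.mpr hx)
  linarith

/-- exponents, first case -/
theorem exp1 {d A κ K K1 M l L θ r : ℝ} (hd : 0 ≤ d) (hA : 0 ≤ A) (hκ : 0 < κ) (hK : 1 ≤ K)
    (hK1 : 1 ≤ K1) (hM1 : 1 ≤ M)
    (hM2 : d * (2 * K + 4 * κ) / κ ≤ M) (hM3 : 4 * K1 * (1 + K + 2 * κ) / κ ≤ M)
    (hM4 : (28 + 2 * A) / κ ≤ M)
    (hl : 1 ≤ l) (hL : M * l < L) (hθ0 : 0 ≤ θ) (hθ : θ ≤ K * l) (hr : r ≤ K * l + 2 * κ * L) :
    -(κ * L ^ 2) + A * L + (d * l / 2 * (θ + 2 * κ * L) + K1 * (1 + r)) ≤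
      -(12 * l) - 2 * L := by
  have hM0 : 0 < M := by linarith
  have hML : M ≤ L := by nlinarith
  have hL0 : 0 < L := by linarith
  have hlL : l ≤ L := by nlinarith
  have hlM : l * M ≤ L := by linarith
  rw [div_le_iff₀ hκ] at hM2 hM3 hM4
  have hMκ : M * κ * L ≤ κ * L ^ 2 := by
    have := mul_le_mul_of_nonneg_right hML (by positivity : 0 ≤ κ * L)
    linarith
  have a1 : d * l / 2 * θ ≤ d * K * (l * L) / 2 := by
    have b1 : θ ≤ K * L := hθ.trans (by nlinarith)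
    have b2 : d * l / 2 * θ ≤ d * l / 2 * (K * L) := mul_le_mul_of_nonneg_left b1 (by positivity)
    linarith
  have a2 : d * (2 * K + 4 * κ) * (l * L) ≤ κ * L ^ 2 := by
    have h1 : d * (2 * K + 4 * κ) * (l * L) ≤ M * κ * (l * L) :=
      mul_le_mul_of_nonneg_right hM2 (by positivity)
    have h2 : M * κ * (l * L) ≤ κ * L ^ 2 := by
      have h3 : (l * M) * (κ * L) ≤ L * (κ * L) :=
        mul_le_mul_of_nonneg_right hlM (by positivity)
      linarith
    linarith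
  have a3 : K1 * (1 + r) ≤ κ * L ^ 2 / 4 := by
    have b1 : K1 * (1 + r) ≤ K1 * ((1 + K + 2 * κ) * L) := by
      apply mul_le_mul_of_nonneg_left _ (by linarith)
      nlinarith
    have b2 : 4 * K1 * (1 + K + 2 * κ) * L ≤ κ * L ^ 2 := by
      have c1 := mul_le_mul_of_nonneg_right hM3 hL0.le
      linarith [hMκ]
    linarith
  have a4 : (28 + 2 * A) * L ≤ κ * L ^ 2 := by
    have c1 := mul_le_mul_of_nonneg_right hM4 hL0.le
    linarith [hMκ]
  have a5 : d * l / 2 * (θ + 2 * κ * L) = d * l / 2 * θ + d * κ * (l * L) := by ring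
  have a6 : d * (2 * K + 4 * κ) * (l * L) = 2 * (d * K * (l * L)) + 4 * (d * κ * (l * L)) := by ring
  rw [a5]
  rw [a6] at a2
  linarith

/-- exponents, second case -/
theorem exp2 {A κ K K2 K3 l L θ t : ℝ} (hA : 0 ≤ A) (hκ : 0 < κ) (hK : 1 ≤ K) (hK2 : 1 ≤ K2) (hK3 : 1 ≤ K3)
    (hl0 : 0 ≤ l) (hlL : l ≤ L) (hL1 : 1 ≤ L)
    (hLD : (16 * (K + 2 * κ) * K2 * Real.sqrt (3 * (K + 2 * κ)) / κ) ^ 2 ≤ L)
    (hLE : (28 + 2 * A + 32 * (K + 2 * κ) * K3) / κ ≤ L)
    (hθ0 : 0 ≤ θ) (hθ : θ ≤ K * l) (ht : t ≤ 16 * (K + 2 * κ) * L) :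
    -(κ * L ^ 2) + A * L + K2 * (1 + (θ + 2 * κ * L)) * Real.log (2 + (θ + 2 * κ * L)) ≤
      -(K3 * t) + (-(12 * l) - 2 * L) := by
  set c := K + 2 * κ with hc
  have hc1 : 1 ≤ c := by linarith
  have hL0 : 0 < L := by linarith
  have hx : θ + 2 * κ * L ≤ c * L := by
    have : θ ≤ K * L := hθ.trans (by nlinarith)
    rw [hc]; nlinarith
  have hx0 : 0 ≤ θ + 2 * κ * L := by positivity
  have h1 : Real.log (2 + (θ + 2 * κ * L)) ≤ 2 * Real.sqrt (3 * c * L) := by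
    refine (log_le_two_sqrt (by linarith)).trans ?_
    have : 2 + (θ + 2 * κ * L) ≤ 3 * c * L := by nlinarith
    have := Real.sqrt_le_sqrt this
    linarith
  have h1' : 0 ≤ Real.log (2 + (θ + 2 * κ * L)) := Real.log_nonneg (by linarith)
  have h2 : K2 * (1 + (θ + 2 * κ * L)) ≤ K2 * (2 * c * L) := by
    apply mul_le_mul_of_nonneg_left _ (by linarith)
    nlinarith
  have h3 : K2 * (1 + (θ + 2 * κ * L)) * Real.log (2 + (θ + 2 * κ * L)) ≤
      K2 * (2 * c * L) * (2 * Real.sqrt (3 * c * L)) := by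
    apply mul_le_mul h2 h1 h1' (by positivity)
  have h4 : Real.sqrt (3 * c * L) = Real.sqrt (3 * c) * Real.sqrt L := by
    rw [Real.sqrt_mul (by positivity)]
  have h5 : 16 * c * K2 * Real.sqrt (3 * c) ≤ κ * Real.sqrt L := by
    have h6 := Real.sqrt_le_sqrt hLD
    rw [Real.sqrt_sq (by positivity), div_le_iff₀ hκ] at h6
    linarith
  have h6 : K2 * (2 * c * L) * (2 * Real.sqrt (3 * c * L)) ≤ κ * L ^ 2 / 4 := by
    rw [h4]
    have h7 : Real.sqrt L * Real.sqrt L = L := Real.mul_self_sqrt hL0.le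
    have h8 : 16 * c * K2 * Real.sqrt (3 * c) * Real.sqrt L ≤ κ * L := by
      have := mul_le_mul_of_nonneg_right h5 (Real.sqrt_nonneg L)
      nlinarith
    have h9 := mul_le_mul_of_nonneg_right h8 hL0.le
    nlinarith
  have h10 : (28 + 2 * A + 32 * c * K3) * L ≤ κ * L ^ 2 := by
    rw [div_le_iff₀ hκ] at hLE
    nlinarith
  have h11 : K3 * t ≤ 16 * c * K3 * L := by nlinarith
  nlinarith

theorem sum_sq_le (s : Finset ℕ) : ∑ n ∈ s, Real.exp (-2 * Real.log ((n : ℝ) + 1)) ≤ 2 := by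
  have e : ∀ n : ℕ, Real.exp (-2 * Real.log ((n : ℝ) + 1)) = 1 / ((n + 1 : ℕ) : ℝ) ^ 2 := by
    intro n
    have hp : (0 : ℝ) < (n : ℝ) + 1 := by positivity
    rw [show -2 * Real.log ((n : ℝ) + 1) = -(2 * Real.log ((n : ℝ) + 1)) by ring, Real.exp_neg,
      show 2 * Real.log ((n : ℝ) + 1) = ((2 : ℕ) : ℝ) * Real.log ((n : ℝ) + 1) by norm_num,
      Real.exp_nat_mul, Real.exp_log hp]
    push_cast
    rw [one_div]
  simp_rw [e]
  have hz := hasSum_zeta_two
  have hsum : Summable (fun n : ℕ => 1 / ((n : ℝ)) ^ 2) := hz.summable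
  have h1 : ∑ n ∈ s, 1 / ((n + 1 : ℕ) : ℝ) ^ 2 = ∑ m ∈ s.map ⟨Nat.succ, Nat.succ_injective⟩,
      1 / (m : ℝ) ^ 2 := by
    rw [Finset.sum_map]
    rfl
  rw [h1]
  have h2 := hsum.sum_le_tsum (s.map ⟨Nat.succ, Nat.succ_injective⟩) (fun _ _ => by positivity)
  rw [hz.tsum_eq] at h2
  have h3 : Real.pi ^ 2 / 6 ≤ 2 := by
    have : Real.pi < 3.15 := Real.pi_lt_d2
    nlinarith [Real.pi_pos]
  linarith

theorem tail (D : Dat) (hD : Ok D) (hS : S_STIR D) (hG : S_GGC D) (hU : S_GGU D) :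
    S_TAIL D := by
  intro κ hκ K hK
  obtain ⟨A, hA0, hA⟩ := hD.gr
  obtain ⟨K3, T3, hK3, hT3, hst⟩ := hS
  obtain ⟨K2, hK2, hgc, -⟩ := hG
  obtain ⟨K1, T1, hK1, hT1, hgu⟩ := hU κ hκ
  have hd0 : (0 : ℝ) ≤ (D.d : ℝ) := Nat.cast_nonneg _
  set c := K + 2 * κ with hc
  have hc1 : 1 ≤ c := by linarith
  set M := max (max 1 (D.d * (2 * K + 4 * κ) / κ))
    (max (4 * K1 * (1 + K + 2 * κ) / κ) ((28 + 2 * A) / κ)) with hM
  have hM1 : 1 ≤ M := (le_max_left _ _).trans (le_max_left _ _)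
  have hM2 : D.d * (2 * K + 4 * κ) / κ ≤ M := (le_max_right _ _).trans (le_max_left _ _)
  have hM3 : 4 * K1 * (1 + K + 2 * κ) / κ ≤ M := (le_max_left _ _).trans (le_max_right _ _)
  have hM4 : (28 + 2 * A) / κ ≤ M := (le_max_right _ _).trans (le_max_right _ _)
  set D' := (16 * c * K2 * Real.sqrt (3 * c) / κ) ^ 2 with hD'
  set E := (28 + 2 * A + 32 * c * K3) / κ with hE
  have hD0 : 0 ≤ D' := by positivity
  have hE0 : 0 ≤ E := by positivity
  refine ⟨M, max (max T1 T3) (3 + 16 * c * (D' + E)), hM1, ?_, ?_⟩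
  · exact hT1.trans ((le_max_left _ _).trans (le_max_left _ _))
  intro t ht u hu hure s hs
  have htT1 : T1 ≤ t := ((le_max_left _ _).trans (le_max_left _ _)).trans ht
  have htT3 : T3 ≤ t := ((le_max_right _ _).trans (le_max_left _ _)).trans ht
  have htD : 3 + 16 * c * (D' + E) ≤ t := (le_max_right _ _).trans ht
  have ht3 : 3 ≤ t := by
    have : 0 ≤ 16 * c * (D' + E) := by positivity
    linarith
  have ht0 : 0 < t := by linarith
  obtain ⟨-, -, hlow, -⟩ := hst t htT3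
  set l := Real.log t with hl
  have hl1 : 1 ≤ l := by
    rw [hl, Real.le_log_iff_exp_le ht0]
    have := Real.exp_one_lt_d9
    linarith
  have hθ : u.re ≤ K * l := (Complex.re_le_norm u).trans hu
  have hHH : 0 ≤ ‖HH D (I * t)‖ := norm_nonneg _
  have key : ∀ n ∈ s, ‖XT D κ (I * t + u) n‖ ≤
      Real.exp (-(12 * l)) * ‖HH D (I * t)‖ * Real.exp (-2 * Real.log ((n : ℝ) + 1)) := by
    intro n hn
    have hN := hs n hn
    set L := Real.log ((n : ℝ) + 1) with hL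
    have hn1 : (0 : ℝ) < (n : ℝ) + 1 := by positivity
    have hML : M * l < L := by
      rw [hL, hl, ← Real.log_rpow ht0]
      exact Real.log_lt_log (Real.rpow_pos_of_pos ht0 M) hN
    have hL1 : 1 ≤ L := by nlinarith
    have hlL : l ≤ L := by nlinarith
    refine (norm_XT_le D A hA κ t u hure n).trans ?_
    rw [← hL]
    set w : ℂ := u + ((2 * κ * L : ℝ) : ℂ) with hw
    have hwre : w.re = u.re + 2 * κ * L := by
      rw [hw, Complex.add_re, Complex.ofReal_re]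
    have hwre0 : 0 ≤ w.re := by rw [hwre]; positivity
    have hwn : ‖w‖ ≤ K * l + 2 * κ * L := by
      refine (norm_add_le _ _).trans ?_
      rw [Complex.norm_real, Real.norm_eq_abs, abs_of_nonneg (by positivity)]
      linarith
    by_cases hcase : ‖w‖ ≤ t / 16
    · have hg := hgu t htT1 w hcase hwre0
      rw [hwre] at hg
      have he := exp1 hd0 hA0 hκ hK hK1 hM1 hM2 hM3 hM4 hl1 hML hure hθ hwn
      calc Real.exp (-(κ * L ^ 2) + A * L) * ‖GG D κ (I * t + w)‖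
          ≤ Real.exp (-(κ * L ^ 2) + A * L) * (‖HH D (I * t)‖ *
            Real.exp (D.d * Real.log t / 2 * (u.re + 2 * κ * L) + K1 * (1 + ‖w‖))) := by
            gcongr
        _ = ‖HH D (I * t)‖ * Real.exp (-(κ * L ^ 2) + A * L +
            (D.d * l / 2 * (u.re + 2 * κ * L) + K1 * (1 + ‖w‖))) := by
            rw [Real.exp_add (-(κ * L ^ 2) + A * L)]
            ring
        _ ≤ ‖HH D (I * t)‖ * Real.exp (-(12 * l) - 2 * L) := by
            gcongr
        _ = _ := by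
            rw [show -(12 * l) - 2 * L = -(12 * l) + -2 * L by ring, Real.exp_add]
            ring
    · push Not at hcase
      have htL : t ≤ 16 * c * L := by
        have : K * l + 2 * κ * L ≤ c * L := by rw [hc]; nlinarith
        linarith
      have hLDE : D' + E ≤ L := by
        have h5 : 16 * c * (D' + E) ≤ 16 * c * L := by linarith
        exact le_of_mul_le_mul_left h5 (by positivity)
      have hz : 0 ≤ (I * (t : ℂ) + w).re := by
        simp
        exact hwre0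
      have hzre : (I * (t : ℂ) + w).re = u.re + 2 * κ * L := by
        rw [Complex.add_re, hwre]
        simp
      have hg := (hgc κ hκ (I * t + w) hz).2
      rw [hzre] at hg
      have he := exp2 (t := t) hA0 hκ hK hK2 hK3 (by linarith : (0 : ℝ) ≤ l) hlL hL1
        (by linarith : D' ≤ L) (by linarith : E ≤ L) hure hθ htL
      calc Real.exp (-(κ * L ^ 2) + A * L) * ‖GG D κ (I * t + w)‖
          ≤ Real.exp (-(κ * L ^ 2) + A * L) *
            Real.exp (K2 * (1 + (u.re + 2 * κ * L)) * Real.log (2 + (u.re + 2 * κ * L))) := by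
            gcongr
        _ = Real.exp (-(κ * L ^ 2) + A * L +
            K2 * (1 + (u.re + 2 * κ * L)) * Real.log (2 + (u.re + 2 * κ * L))) := by
            rw [← Real.exp_add]
        _ ≤ Real.exp (-(K3 * t) + (-(12 * l) - 2 * L)) := by
            gcongr
        _ = Real.exp (-(K3 * t)) * Real.exp (-(12 * l) - 2 * L) := by
            rw [Real.exp_add]
        _ ≤ ‖HH D (I * t)‖ * Real.exp (-(12 * l) - 2 * L) := by
            gcongr
        _ = _ := by
            rw [show -(12 * l) - 2 * L = -(12 * l) + -2 * L by ring, Real.exp_add]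
            ring
  calc ∑ n ∈ s, ‖XT D κ (I * t + u) n‖
      ≤ ∑ n ∈ s, Real.exp (-(12 * l)) * ‖HH D (I * t)‖ *
        Real.exp (-2 * Real.log ((n : ℝ) + 1)) := Finset.sum_le_sum key
    _ = Real.exp (-(12 * l)) * ‖HH D (I * t)‖ *
        ∑ n ∈ s, Real.exp (-2 * Real.log ((n : ℝ) + 1)) := by rw [Finset.mul_sum]
    _ ≤ Real.exp (-(12 * l)) * ‖HH D (I * t)‖ * 2 := by
        gcongr
        exact sum_sq_le s
    _ ≤ Real.exp (-(12 * l)) * ‖HH D (I * t)‖ * Real.exp (2 * l) := by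
        gcongr
        have := Real.add_one_le_exp (2 * l)
        linarith
    _ = t ^ (-10 : ℝ) * ‖HH D (I * t)‖ := by
        rw [Real.rpow_def_of_pos ht0, ← hl, mul_right_comm, ← Real.exp_add]
        congr 2
        ring

end Pool.Agent.W398.BG
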